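import Pool.Agent.H393Z.RW.Main

set_option autoImplicit false

namespace Pool.Agent.Results.MP_31ab2b_pr.ANoHomogenization

open Pool.Agent.H393Z.RW

/-- In every dimension and for every admissible `ε`, condition (ii) of homogenization fails. -/
theorem result (d : ℕ) (hd : 1 ≤ d) (ε : ℝ) (hε : 0 < ε) (hε' : ε < 1 / (2 * d)) :
    ¬ CondTwo d ε :=
  not_condTwo hd hε hε'

end Pool.Agent.Results.MP_31ab2b_pr.ANoHomogenization
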